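import Mathlib
import Pool.Agent.Hhelper76.CL.Final

/-!
# Zeros on the critical line, at bounded height, for almost all class group L-functions
-/

open scoped NumberField nonZeroDivisors

namespace Pool.Hhelper76.Old.CriticalLineZeros

/-- `L` is the L-function of the character `χ` of the ideal class group of `K`: an entire function
which for `Re s > 1` is the sum of the Dirichlet series `∑ χ([I]) N(I)^(-s)` over all non-zero
integral ideals `I` of `K`. -/
def IsLFunction (K : Type) [Field K] [NumberField K] (χ : ClassGroup (𝓞 K) →* ℂˣ)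
    (L : ℂ → ℂ) : Prop :=
  Differentiable ℂ L ∧ ∀ s : ℂ, 1 < s.re →
    HasSum (fun I : (Ideal (𝓞 K))⁰ => ((χ (ClassGroup.mk0 I) : ℂˣ) : ℂ) *
      (Ideal.absNorm (I : Ideal (𝓞 K)) : ℂ) ^ (-s)) (L s)

/-- `L(1/2 + it, χ) = 0` for some real `t` with `T/2 < t < T`. -/
def HasCriticalZero (K : Type) [Field K] [NumberField K] (χ : ClassGroup (𝓞 K) →* ℂˣ)
    (T : ℝ) : Prop :=
  ∃ L : ℂ → ℂ, IsLFunction K χ L ∧
    ∃ t : ℝ, T / 2 < t ∧ t < T ∧ L (1 / 2 + t * Complex.I) = 0

/-- `-D` is the discriminant of an imaginary quadratic field. -/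
def IsDisc (D : ℕ) : Prop :=
  ∃ (K : Type) (_ : Field K) (_ : NumberField K), Module.finrank ℚ K = 2 ∧
    NumberField.discr K = -(D : ℤ)

/-- More than `ε h(K)` of the nontrivial class group characters of the imaginary quadratic field
`K` of discriminant `-D` have no zero `1/2 + it` with `T/2 < t < T`. -/
def Bad (ε T : ℝ) (D : ℕ) : Prop :=
  ∃ (K : Type) (_ : Field K) (_ : NumberField K), Module.finrank ℚ K = 2 ∧
    NumberField.discr K = -(D : ℤ) ∧
    ε * Nat.card (ClassGroup (𝓞 K)) <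
      (({χ : ClassGroup (𝓞 K) →* ℂˣ | χ ≠ 1 ∧ ¬ HasCriticalZero K χ T}.ncard : ℕ) : ℝ)

/-- **Zeros on the critical line at bounded height.** There is an absolute constant `C` such that
for all `T ≥ 1` and `ε > 0`, for all large `X`: for all but a proportion `C / (ε √T)` of the
imaginary quadratic fields `K` with `|disc K| ≤ X`, all but at most `ε h(K)` of the nontrivial
characters `χ` of the class group of `K` satisfy `L(1/2 + it, χ) = 0` for some real `t` with
`T/2 < t < T`. -/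
theorem result : ∃ C : ℝ, 0 < C ∧ ∀ T ε : ℝ, 1 ≤ T → 0 < ε → ∃ X₀ : ℕ, ∀ X : ℕ, X₀ ≤ X →
    (({D : ℕ | D ≤ X ∧ Bad ε T D}.ncard : ℕ) : ℝ) ≤
      C / (ε * Real.sqrt T) * (({D : ℕ | D ≤ X ∧ IsDisc D}.ncard : ℕ) : ℝ) := by
  obtain ⟨C, hC, h⟩ := Pool.Hhelper76.CL.main
  refine ⟨C, hC, fun T ε hT hε => ?_⟩
  obtain ⟨X₀, hX₀⟩ := h T ε hT hε
  refine ⟨X₀, fun X hX => (hX₀ X hX).trans ?_⟩
  have hT0 : 0 < Real.sqrt T := Real.sqrt_pos.2 (by linarith)
  refine mul_le_mul_of_nonneg_left ?_ (by positivity)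
  have hsub : Pool.Hhelper76.CL.discs X ⊆ {D : ℕ | D ≤ X ∧ IsDisc D} := fun D hD =>
    ⟨hD.1, hD.2.2⟩
  exact_mod_cast Set.ncard_le_ncard hsub ((Set.finite_Iic X).subset fun _ h => h.1)

end Pool.Hhelper76.Old.CriticalLineZeros
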